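import Pool.Agent.H591R3.CEX.Cover2
import Pool.Agent.H620R2.Gauge.NonNull

/-!
# Counterexample computations relative to an oracle, for all levels

For every `i` and every gauge `f` the following are equivalent: for every `ε > 0` there are
infinitely many `N` with `f N ≤ 2 ^ ((log N) ^ ε)`; the oracles relative to which every
optimization problem `(C, ρ)` with `C` in `Π_i` is computed by a type 1 counterexample computation
with a `Σ_i` oracle are a null set for `f`. The same for the oracles for which this holds for some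
`i`.
-/

namespace Pool.Agent.Results.MP_2b5695_lc.RelativizedAllLevels

open Pool.Agent.NPC Pool.Agent.H620R2.Gauge Pool.Agent.H591R3.CEX

theorem result (f : ℕ → ℝ) :
    (∀ i : ℕ, (Null f {A : Oracle | Type1 A i} ↔
      ∀ ε : ℝ, 0 < ε → ∃ᶠ N : ℕ in Filter.atTop, f N ≤ 2 ^ (Real.logb 2 N) ^ ε)) ∧
    (Null f {A : Oracle | ∃ i, Type1 A i} ↔
      ∀ ε : ℝ, 0 < ε → ∃ᶠ N : ℕ in Filter.atTop, f N ≤ 2 ^ (Real.logb 2 N) ^ ε) := by
  have key : ∀ O : Set Oracle,
      (∀ A : Oracle, (∀ L, IsPSPACE A L → Reduces L {x | A x = true}) → A ∈ O) →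
      (∀ A ∈ O, ∃ i, Type1 A i) →
      (Null f O ↔
        ∀ ε : ℝ, 0 < ε → ∃ᶠ N : ℕ in Filter.atTop, f N ≤ 2 ^ (Real.logb 2 N) ^ ε) := by
    intro O h1 h2
    constructor
    · intro hn ε hε
      by_contra hcon
      rw [Filter.not_frequently] at hcon
      exact not_null f ε hε (hcon.mono fun N h => not_le.1 h) O h1 hn
    · intro hf
      exact null_of_frequently3 f hf O h2
  refine ⟨fun i => key _ ?_ ?_, key _ ?_ ?_⟩
  · intro A hA
    exact type1_of_reduces hA i
  · intro A hA
    exact ⟨i, hA⟩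
  · intro A hA
    exact ⟨0, type1_of_reduces hA 0⟩
  · intro A hA
    exact hA

end Pool.Agent.Results.MP_2b5695_lc.RelativizedAllLevels
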